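import Pool.Agent.Run7.h851.T.Iface
import Pool.Agent.H336R2.HD.H2

/-!
# Task H2: principal coefficients in the classes `±r` (`n = p`), order 64
-/

open Polynomial Pool.Agent.H337R2

namespace Pool.Agent.Run7.h136.T

open Pool.Agent.Run7.h851.T

noncomputable section

namespace H2


open Pool.Agent.H336R2.HD.H2aux

variable {p : ℕ} [hp : Fact p.Prime]

/-- the class of `r` -/
def cls (p r : ℕ) (I : Finset ℕ) : Finset ℕ := I.image (fun i => r + i * p)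

lemma mem_cls {r : ℕ} {I : Finset ℕ} {m : ℕ} : m ∈ cls p r I ↔ ∃ i ∈ I, r + i * p = m := by
  unfold cls
  rw [Finset.mem_image]

lemma prod_cls {M : Type*} [CommMonoid M] (r : ℕ) (A I : Finset ℕ) (h : cls p r I ⊆ A) (f : ℕ → M) :
    ∏ m ∈ A, f m = (∏ i ∈ I, f (r + i * p)) * ∏ m ∈ A \ cls p r I, f m := by
  have hpp : 0 < p := hp.out.pos
  have h1 : ∏ i ∈ I, f (r + i * p) = ∏ m ∈ cls p r I, f m := by
    unfold cls
    symm
    apply Finset.prod_image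
    intro a _ b _ hab
    have h5 : r + a * p = r + b * p := hab
    have h7 : a * p = b * p := by omega
    exact Nat.eq_of_mul_eq_mul_right hpp h7
  rw [h1, mul_comm, Finset.prod_sdiff h]

def SC (p r : ℕ) : Finset ℕ := Finset.Icc 0 (4 * p) \ cls p r (Finset.Icc 0 3)

lemma not_dvd_gen {r m : ℕ} (hr1 : 1 ≤ r) (hr2 : 2 * r < p) (hm : m ≤ 4 * p)
    (h : ∀ i, i < 4 → r + i * p ≠ m) : ¬ (p : ℤ) ∣ (m : ℤ) - r := by
  rintro ⟨c, hc⟩
  have hpp : (0 : ℤ) < p := by exact_mod_cast hp.out.pos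
  have hc1 : c < 4 := by
    by_contra h
    have h5 : (p : ℤ) * 4 ≤ p * c := mul_le_mul_of_nonneg_left (by omega) hpp.le
    omega
  have hc2 : -1 < c := by
    by_contra h
    have h5 : (p : ℤ) * c ≤ p * (-1) := mul_le_mul_of_nonneg_left (by omega) hpp.le
    omega
  apply h c.toNat (by omega)
  have h6 : ((c.toNat : ℕ) : ℤ) = c := Int.toNat_of_nonneg (by omega)
  have h7 : ((r + c.toNat * p : ℕ) : ℤ) = m := by
    push_cast
    rw [h6]
    linarith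
  exact_mod_cast h7

lemma SC_not_dvd {r m : ℕ} (hr1 : 1 ≤ r) (hr2 : 2 * r < p) (hm : m ∈ SC p r) :
    ¬ (p : ℤ) ∣ (m : ℤ) - r := by
  unfold SC at hm
  rw [Finset.mem_sdiff, Finset.mem_Icc, mem_cls] at hm
  obtain ⟨⟨h1, h3⟩, h2⟩ := hm
  apply not_dvd_gen hr1 hr2 (by omega)
  intro i hi hm
  apply h2
  refine ⟨i, ?_, hm⟩
  rw [Finset.mem_Icc]
  constructor
  · omega
  · omega

/-- the exact part -/
def FM (p : ℕ) (j e : ℕ) : PowerSeries ℚ :=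
  (∏ b ∈ (Finset.Icc 0 3).erase j, iv (((b : ℚ) - j) * p) ^ 64) *
  (PowerSeries.X + PowerSeries.C (-(j : ℚ) * p)) ^ e

lemma FM_eq (hp0 : (p : ℚ) ≠ 0) {j : ℕ} (hj7 : j ≤ 3) (e : ℕ) : FM p j e =
    PowerSeries.C (((p : ℚ)⁻¹) ^ 192 * (p : ℚ) ^ e) *
      PowerSeries.rescale ((p : ℚ)⁻¹) (ser j e) := by
  have hcard : ((Finset.Icc 0 3).erase j).card = 3 := by
    rw [Finset.card_erase_of_mem (by rw [Finset.mem_Icc]; omega)]; rfl
  have hprod : ∏ b ∈ (Finset.Icc 0 3).erase j, iv (((b : ℚ) - j) * p) ^ 64 =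
      PowerSeries.C ((p : ℚ)⁻¹) ^ 192 * PowerSeries.rescale ((p : ℚ)⁻¹)
        (∏ b ∈ (Finset.Icc 0 3).erase j, iv ((b : ℚ) - j) ^ 64) := by
    rw [map_prod]
    have h1 : PowerSeries.C ((p : ℚ)⁻¹) ^ 192 =
        ∏ b ∈ (Finset.Icc 0 3).erase j, (PowerSeries.C ((p : ℚ)⁻¹) ^ 64 : PowerSeries ℚ) := by
      rw [Finset.prod_const, hcard, ← pow_mul]
    rw [h1, ← Finset.prod_mul_distrib]
    apply Finset.prod_congr rfl
    intro b _
    rw [iv_rescale hp0, mul_pow, map_pow]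
  unfold FM ser
  rw [hprod, lin_rescale hp0]
  generalize (∏ b ∈ (Finset.Icc 0 3).erase j, iv ((b : ℚ) - j) ^ 64) = PI0
  simp only [map_mul, map_pow, mul_pow]
  generalize (PowerSeries.C ((p : ℚ)⁻¹) : PowerSeries ℚ) ^ 192 = c1
  ring

lemma FM_coeff (hp0 : (p : ℚ) ≠ 0) {j : ℕ} (hj7 : j ≤ 3) (e l : ℕ) :
    PowerSeries.coeff l (FM p j e) =
    ((p : ℚ)⁻¹) ^ 192 * (p : ℚ) ^ e * (((p : ℚ)⁻¹) ^ l * PowerSeries.coeff l (ser j e)) := by
  rw [FM_eq hp0 hj7, PowerSeries.coeff_C_mul, PowerSeries.coeff_rescale]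

lemma FM_PB (hp100 : 400 ≤ p) {j : ℕ} (hj7 : j ≤ 3) (e : ℕ) :
    PB p (p : ℚ) ((p : ℚ) ^ 192 * ((p : ℚ)⁻¹) ^ e) (FM p j e) := by
  have hp0 : (0 : ℚ) ≤ p := p_pos'.le
  have hinv : (0 : ℚ) ≤ (p : ℚ)⁻¹ := inv_nonneg.2 hp0
  have hcard : ((Finset.Icc 0 3).erase j).card = 3 := by
    rw [Finset.card_erase_of_mem (by rw [Finset.mem_Icc]; omega)]; rfl
  have e1 : PB p (p : ℚ) (p : ℚ)⁻¹ (PowerSeries.X + PowerSeries.C (-(j : ℚ) * p)) :=
    PB_linp (-(j : ℤ)) (by push_cast; ring)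
  have f2 : PB p (p : ℚ) (∏ b ∈ (Finset.Icc 0 3).erase j, (p : ℚ) ^ 64)
      (∏ b ∈ (Finset.Icc 0 3).erase j, iv (((b : ℚ) - j) * p) ^ 64) := by
    apply PB.prod _ _ _ hp0
    · intro b _; positivity
    · intro b hb
      rw [Finset.mem_erase, Finset.mem_Icc] at hb
      apply PB.pow hp0 hp0
      apply PB_ivp (a := (b : ℤ) - j) (by push_cast; ring)
      apply not_dvd_of_lt
      · have := hb.1
        omega
      · omega
      · omega
  have f3 := PB.pow hp0 hinv e1 e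
  rw [Finset.prod_const, hcard, ← pow_mul] at f2
  exact PB.mul hp0 (by positivity) (by positivity) f2 f3

/-- the constant -/
def wM (p r : ℕ) : ℚ :=
  (-2 * (r : ℚ)) * (-(r : ℚ)) ^ 256 *
  (∏ r' ∈ (Finset.Icc 1 ((p - 1) / 2)).erase r, (((r' : ℚ) - r) * (4 * p - r' - r)) ^ 192) *
  ∏ m ∈ SC p r, (((m : ℚ) - r)⁻¹) ^ 64

/-- the unit part -/
def GM (p r k e : ℕ) : PowerSeries ℚ :=
  (PowerSeries.C 2 * PowerSeries.X + PowerSeries.C (2 * -(k : ℚ) + 4 * p)) *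
  (PowerSeries.X + PowerSeries.C (-(k : ℚ) + 2 * p)) ^ 256 *
  (∏ r' ∈ (Finset.Icc 1 ((p - 1) / 2)).erase r,
    ((PowerSeries.X + PowerSeries.C (-(k : ℚ) + r')) *
      (PowerSeries.X + PowerSeries.C (-(k : ℚ) + (4 * p - r')))) ^ 192) *
  (∏ m ∈ SC p r, iv (-(k : ℚ) + m) ^ 64) *
  (PowerSeries.X + PowerSeries.C (-(k : ℚ) + (4 * p - r))) ^ e

lemma GM_UC (hp100 : 400 ≤ p) {r : ℕ} (hr1 : 1 ≤ r) (hr2 : 2 * r < p) (j e : ℕ) :
    UC p (GM p r (r + j * p) e) (wM p r * (-2 * (r : ℚ)) ^ e) := by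
  have n2r : ¬ (p : ℤ) ∣ -2 * (r : ℤ) := not_dvd_of_lt (by omega) (by omega) (by omega)
  unfold GM wM
  refine UC.mul (UC.mul (UC.mul (UC.mul ?_ ?_) ?_) ?_) ?_
  · apply UC.lin2 (a := 2 * -((r + j * p : ℕ) : ℤ) + 4 * p) (a0 := -2 * (r : ℤ))
    · push_cast; ring
    · push_cast; ring
    · exact n2r
    · refine ⟨4 - 2 * j, ?_⟩
      push_cast; ring
  · apply UC.pow
    apply UC.lin (a := -((r + j * p : ℕ) : ℤ) + 2 * p) (a0 := -(r : ℤ))
    · push_cast; ring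
    · push_cast; ring
    · exact not_dvd_of_lt (by omega) (by omega) (by omega)
    · refine ⟨2 - j, ?_⟩
      push_cast; ring
  · apply UC.prod
    intro r' hr'
    rw [Finset.mem_erase, Finset.mem_Icc] at hr'
    apply UC.pow
    apply UC.mul
    · apply UC.lin (a := -((r + j * p : ℕ) : ℤ) + r') (a0 := (r' : ℤ) - r)
      · push_cast; ring
      · push_cast; ring
      · exact not_dvd_of_lt (by omega) (by omega) (by omega)
      · refine ⟨-j, ?_⟩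
        push_cast; ring
    · apply UC.lin (a := -((r + j * p : ℕ) : ℤ) + (4 * p - r')) (a0 := 4 * (p : ℤ) - r' - r)
      · push_cast; ring
      · push_cast; ring
      · intro h
        have h1 : (p : ℤ) ∣ 4 * (p : ℤ) := Dvd.intro_left _ rfl
        have h2 := dvd_sub h1 h
        have h3 : 4 * (p : ℤ) - (4 * (p : ℤ) - r' - r) = r' + r := by ring
        rw [h3] at h2
        exact not_dvd_of_lt (by omega) (by omega) (by omega) h2
      · refine ⟨-j, ?_⟩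
        push_cast; ring
  · apply UC.prod
    intro m hm
    apply UC.pow
    apply UC.iv (a := -((r + j * p : ℕ) : ℤ) + m) (a0 := (m : ℤ) - r)
    · push_cast; ring
    · push_cast; ring
    · exact SC_not_dvd hr1 hr2 hm
    · refine ⟨-j, ?_⟩
      push_cast; ring
  · apply UC.pow
    apply UC.lin (a := -((r + j * p : ℕ) : ℤ) + (4 * p - r)) (a0 := -2 * (r : ℤ))
    · push_cast; ring
    · push_cast; ring
    · exact n2r
    · refine ⟨4 - j, ?_⟩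
      push_cast; ring

/-! ### the numerator -/

lemma XN_comp2 (p r : ℕ) : (XN p r).comp (xM p) =
    (X + C (r : ℚ)) * (X + C (4 * (p : ℚ) - r)) := by
  unfold XN xM
  rw [Polynomial.sub_comp, Polynomial.X_comp, Polynomial.pow_comp, Polynomial.C_comp]
  have h : ((2 * p : ℕ) : ℚ) = 2 * p := by push_cast; ring
  rw [h]
  have h2 : (4 * (p : ℚ) - r) = 2 * p + (2 * p - r) := by ring
  have h3 : (r : ℚ) = 2 * p - (2 * p - r) := by ring
  rw [h2]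
  nth_rewrite 2 [h3]
  generalize (2 * (p : ℚ) - r) = b
  generalize (2 * (p : ℚ)) = a
  simp only [map_add, map_sub]
  ring

lemma TS_num2 (p r e k : ℕ) : TS (-(k : ℚ)) (PM p * EM p (XN p r ^ e * OT p r 192)) =
    PowerSeries.C (cM p) *
    (PowerSeries.C 2 * PowerSeries.X + PowerSeries.C (2 * -(k : ℚ) + 4 * p)) *
    (((PowerSeries.X + PowerSeries.C (-(k : ℚ) + 2 * p)) ^ 2) ^ 128 *
    (((PowerSeries.X + PowerSeries.C (-(k : ℚ) + r)) *
      (PowerSeries.X + PowerSeries.C (-(k : ℚ) + (4 * p - r)))) ^ e *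
    ∏ r' ∈ (Finset.Icc 1 ((p - 1) / 2)).erase r,
      ((PowerSeries.X + PowerSeries.C (-(k : ℚ) + r')) *
        (PowerSeries.X + PowerSeries.C (-(k : ℚ) + (4 * p - r')))) ^ 192)) := by
  unfold EM OT
  simp only [Polynomial.mul_comp, Polynomial.pow_comp, Polynomial.prod_comp, XN_comp2,
    Polynomial.X_comp]
  unfold PM xM
  have h : ((2 * p : ℕ) : ℚ) = 2 * p := by push_cast; ring
  have h6 : ((4 * p : ℕ) : ℚ) = 4 * p := by push_cast; ring
  rw [h, h6]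
  generalize (4 : ℚ) * (p : ℚ) = d
  generalize (2 : ℚ) * (p : ℚ) = d'
  simp only [map_mul, map_pow, map_prod, TS_C, TS_lin, TS_lin2]

lemma VV_den2 (hp100 : 400 ≤ p) {r : ℕ} (hr1 : 1 ≤ r) (hr2 : 2 * r < p) {j : ℕ} (hj7 : j ≤ 3) :
    VV ((sM p).erase (r + j * p)) mM (-((r + j * p : ℕ) : ℚ)) =
      (∏ m ∈ SC p r, iv (-((r + j * p : ℕ) : ℚ) + m) ^ 64) *
      ∏ b ∈ (Finset.Icc 0 3).erase j, iv (((b : ℚ) - j) * p) ^ 64 := by
  have hjp2 : j * p ≤ 3 * p := Nat.mul_le_mul_right p hj7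
  have hVV : VV ((sM p).erase (r + j * p)) mM (-((r + j * p : ℕ) : ℚ)) =
      ∏ m ∈ (sM p).erase (r + j * p), iv (-((r + j * p : ℕ) : ℚ) + m) ^ 64 := rfl
  rw [hVV]
  have hsub : cls p r ((Finset.Icc 0 3).erase j) ⊆ (sM p).erase (r + j * p) := by
    intro m hm
    rw [mem_cls] at hm
    obtain ⟨i, hi, rfl⟩ := hm
    rw [Finset.mem_erase, Finset.mem_Icc] at hi
    have hi2 : i * p ≤ 3 * p := Nat.mul_le_mul_right p hi.2.2
    rw [Finset.mem_erase, Finset.mem_Icc]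
    refine ⟨?_, by omega, by omega⟩
    intro h
    apply hi.1
    have h7 : i * p = j * p := by omega
    exact Nat.eq_of_mul_eq_mul_right (by omega) h7
  rw [prod_cls (p := p) r _ _ hsub, mul_comm]
  have hset : (sM p).erase (r + j * p) \ cls p r ((Finset.Icc 0 3).erase j) = SC p r := by
    ext m
    unfold SC
    rw [Finset.mem_sdiff, Finset.mem_sdiff, Finset.mem_erase, mem_cls, mem_cls]
    constructor
    · rintro ⟨⟨h1, h2⟩, h3⟩
      refine ⟨h2, ?_⟩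
      rintro ⟨i, hi, hm⟩
      apply h3
      refine ⟨i, ?_, hm⟩
      rw [Finset.mem_erase]
      refine ⟨?_, hi⟩
      rintro rfl
      exact h1 hm.symm
    · rintro ⟨h1, h2⟩
      refine ⟨⟨?_, h1⟩, ?_⟩
      · rintro rfl
        exact h2 ⟨j, by rw [Finset.mem_Icc]; omega, rfl⟩
      · rintro ⟨i, hi, hm⟩
        exact h2 ⟨i, Finset.mem_of_mem_erase hi, hm⟩
  rw [hset]
  have h6 : ∀ b : ℕ, -((r + j * p : ℕ) : ℚ) + ((r + b * p : ℕ) : ℚ) = ((b : ℚ) - j) * p := by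
    intro b
    push_cast
    ring
  have h7 : ∏ i ∈ (Finset.Icc 0 3).erase j, iv (-((r + j * p : ℕ) : ℚ) + ((r + i * p : ℕ) : ℚ)) ^ 64 =
      ∏ b ∈ (Finset.Icc 0 3).erase j, iv (((b : ℚ) - j) * p) ^ 64 :=
    Finset.prod_congr rfl fun b _ => by rw [h6]
  rw [h7]

/-- the factorisation -/
lemma factor2 (hp100 : 400 ≤ p) {r : ℕ} (hr1 : 1 ≤ r) (hr2 : 2 * r < p) {j : ℕ}
    (hj7 : j ≤ 3) (e : ℕ) :
    TS (-((r + j * p : ℕ) : ℚ)) (PM p * EM p (XN p r ^ e * OT p r 192)) *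
      VV ((sM p).erase (r + j * p)) mM (-((r + j * p : ℕ) : ℚ)) =
    PowerSeries.C (cM p) * (FM p j e * GM p r (r + j * p) e) := by
  rw [TS_num2, VV_den2 hp100 hr1 hr2 hj7]
  have v1 : -((r + j * p : ℕ) : ℚ) + (r : ℚ) = -(j : ℚ) * p := by push_cast; ring
  rw [v1]
  unfold FM GM
  have hpw : ((PowerSeries.X + PowerSeries.C (-((r + j * p : ℕ) : ℚ) + 2 * (p : ℚ)) : PowerSeries ℚ) ^ 2) ^ 128 =
      (PowerSeries.X + PowerSeries.C (-((r + j * p : ℕ) : ℚ) + 2 * (p : ℚ)) : PowerSeries ℚ) ^ 256 := by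
    rw [← pow_mul]
  rw [hpw]
  generalize (PowerSeries.X + PowerSeries.C (-((r + j * p : ℕ) : ℚ) + 2 * (p : ℚ)) : PowerSeries ℚ) ^ 256 = a8
  generalize ∏ m ∈ SC p r, iv (-((r + j * p : ℕ) : ℚ) + m) ^ 64 = a3
  generalize ∏ b ∈ (Finset.Icc 0 3).erase j, iv (((b : ℚ) - j) * p) ^ 64 = a4
  generalize ∏ r' ∈ (Finset.Icc 1 ((p - 1) / 2)).erase r,
    ((PowerSeries.X + PowerSeries.C (-((r + j * p : ℕ) : ℚ) + r')) *
        (PowerSeries.X + PowerSeries.C (-((r + j * p : ℕ) : ℚ) + (4 * p - r')))) ^ 192 = a5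
  rw [mul_pow (PowerSeries.X + PowerSeries.C (-(j : ℚ) * p)) _ e]
  generalize (PowerSeries.X + PowerSeries.C (-(j : ℚ) * p)) ^ e = a6
  generalize (PowerSeries.X + PowerSeries.C (-((r + j * p : ℕ) : ℚ) + (4 * (p : ℚ) - r))) ^ e = a7
  ring

end H2

open H2
open Pool.Agent.H336R2.HD.H2aux

theorem t_H2_pa : St_H2_pa := by
  intro p _ hp r hr1 hr2
  have hp0 : (p : ℚ) ≠ 0 := p_pos'.ne'
  have hpp : (0 : ℚ) < p := p_pos'
  have hcst : padicNorm p (cM p) = ((p : ℚ)⁻¹) ^ 256 := by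
    have hd1 : 4 * p / p = 4 := Nat.mul_div_cancel 4 (by omega)
    unfold cM
    rw [padicNorm_pow', norm_factorial (by nlinarith), hd1, ← zpow_natCast, ← zpow_natCast,
      inv_zpow', ← zpow_mul]
    norm_num
  refine ⟨cM p / (p : ℚ) ^ 256 * wM p r, ?_, ?_⟩
  · have h0 := (GM_UC hp hr1 hr2 0 0).1
    rw [pow_zero, mul_one] at h0
    rw [padicNorm.mul, padicNorm.div, hcst, h0, padicNorm_pow', padicNorm.padicNorm_p_of_prime, mul_one]
    exact div_self (by positivity)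
  · intro e j i he hj7 hi1 hi20
    unfold pa
    rw [if_pos hi20]
    unfold pfc
    rw [factor2 hp hr1 hr2 hj7 e, PowerSeries.coeff_C_mul]
    have h1 := coeff_mul_UC (p := p) (by positivity) (FM_PB hp hj7 e) (GM_UC hp hr1 hr2 j e) (64 - i)
    have h2 := FM_coeff hp0 hj7 e (64 - i)
    set X1 := PowerSeries.coeff (64 - i) (FM p j e * GM p r (r + j * p) e) with hX1
    set X2 := PowerSeries.coeff (64 - i) (FM p j e) with hX2
    have hpow : ((p : ℚ)⁻¹) ^ 192 * (p : ℚ) ^ e * ((p : ℚ)⁻¹) ^ (64 - i) * (p : ℚ) ^ 256 =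
        (p : ℚ) ^ (i + e) := by
      have h3 : ((p : ℚ)⁻¹) ^ (64 - i) * (p : ℚ) ^ 64 = (p : ℚ) ^ i := by
        have h4 : (p : ℚ) ^ 64 = (p : ℚ) ^ (64 - i) * (p : ℚ) ^ i := by
          rw [← pow_add, Nat.sub_add_cancel hi20]
        rw [h4, ← mul_assoc, ← mul_pow, inv_mul_cancel₀ hp0, one_pow, one_mul]
      have h5 : ((p : ℚ)⁻¹) ^ 192 * (p : ℚ) ^ 192 = 1 := by
        rw [← mul_pow, inv_mul_cancel₀ hp0, one_pow]
      have h55 : (p : ℚ) ^ 256 = (p : ℚ) ^ 192 * (p : ℚ) ^ 64 := by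
        rw [← pow_add]
      calc ((p : ℚ)⁻¹) ^ 192 * (p : ℚ) ^ e * ((p : ℚ)⁻¹) ^ (64 - i) * (p : ℚ) ^ 256
          = (((p : ℚ)⁻¹) ^ 192 * (p : ℚ) ^ 192) * (p : ℚ) ^ e * (((p : ℚ)⁻¹) ^ (64 - i) * (p : ℚ) ^ 64) := by
            rw [h55]
            generalize (p : ℚ) ^ 192 = y1
            generalize ((p : ℚ)⁻¹) ^ 192 = y2
            generalize (p : ℚ) ^ 64 = y3
            generalize ((p : ℚ)⁻¹) ^ (64 - i) = y4
            ring
        _ = (p : ℚ) ^ (i + e) := by rw [h3, h5, pow_add]; ring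
    have h6 : cM p * X1 / (p : ℚ) ^ (i + e) -
        cM p / (p : ℚ) ^ 256 * wM p r * (-2 * (r : ℚ)) ^ e * PowerSeries.coeff (64 - i) (ser j e) =
        cM p / (p : ℚ) ^ (i + e) * (X1 - X2 * (wM p r * (-2 * (r : ℚ)) ^ e)) := by
      rw [h2, mul_sub]
      congr 1
      · ring
      · rw [← hpow]
        have h7 : ((p : ℚ)⁻¹) ^ 192 ≠ 0 := by positivity
        have h8 : ((p : ℚ)⁻¹) ^ (64 - i) ≠ 0 := by positivity
        have h9 : (p : ℚ) ^ 256 ≠ 0 := by positivity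
        generalize ((p : ℚ)⁻¹) ^ 192 = c1 at *
        generalize ((p : ℚ)⁻¹) ^ (64 - i) = c2 at *
        generalize (p : ℚ) ^ 256 = c3 at *
        field_simp
    rw [h6, padicNorm.mul, padicNorm.div, hcst, padicNorm_pow', padicNorm.padicNorm_p_of_prime]
    calc ((p : ℚ)⁻¹) ^ 256 / ((p : ℚ)⁻¹) ^ (i + e) *
          padicNorm p (X1 - X2 * (wM p r * (-2 * (r : ℚ)) ^ e))
        ≤ ((p : ℚ)⁻¹) ^ 256 / ((p : ℚ)⁻¹) ^ (i + e) *
          ((p : ℚ) ^ 192 * ((p : ℚ)⁻¹) ^ e * (p : ℚ)⁻¹ * (p : ℚ) ^ (64 - i)) :=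
          mul_le_mul_of_nonneg_left h1 (by positivity)
      _ = (p : ℚ)⁻¹ := by
        have h9 : (p : ℚ) ^ (64 - i) * ((p : ℚ)⁻¹) ^ 64 = ((p : ℚ)⁻¹) ^ i := by
          have h4 : ((p : ℚ)⁻¹) ^ 64 = ((p : ℚ)⁻¹) ^ (64 - i) * ((p : ℚ)⁻¹) ^ i := by
            rw [← pow_add, Nat.sub_add_cancel hi20]
          rw [h4, ← mul_assoc, ← mul_pow, mul_inv_cancel₀ hp0, one_pow, one_mul]
        have h5 : ((p : ℚ)⁻¹) ^ 192 * (p : ℚ) ^ 192 = 1 := by
          rw [← mul_pow, inv_mul_cancel₀ hp0, one_pow]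
        have h10 : ((p : ℚ)⁻¹) ^ (i + e) ≠ 0 := by positivity
        have h55 : ((p : ℚ)⁻¹) ^ 256 = ((p : ℚ)⁻¹) ^ 192 * ((p : ℚ)⁻¹) ^ 64 := by
          rw [← pow_add]
        rw [div_mul_eq_mul_div, div_eq_iff h10]
        calc ((p : ℚ)⁻¹) ^ 256 *
            ((p : ℚ) ^ 192 * ((p : ℚ)⁻¹) ^ e * (p : ℚ)⁻¹ * (p : ℚ) ^ (64 - i))
            = (((p : ℚ)⁻¹) ^ 192 * (p : ℚ) ^ 192) * ((p : ℚ) ^ (64 - i) * ((p : ℚ)⁻¹) ^ 64) *
              (((p : ℚ)⁻¹) ^ e * (p : ℚ)⁻¹) := by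
              rw [h55]
              generalize (p : ℚ) ^ 192 = y1
              generalize ((p : ℚ)⁻¹) ^ 192 = y2
              generalize ((p : ℚ)⁻¹) ^ 64 = y3
              generalize (p : ℚ) ^ (64 - i) = y4
              ring
          _ = (p : ℚ)⁻¹ * ((p : ℚ)⁻¹) ^ (i + e) := by
            rw [h5, h9, pow_add]; ring

end

end Pool.Agent.Run7.h136.T
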