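import Pool.Agent.Run7.h851.T.Iface
import Pool.Agent.H336R2.HD.H1

/-! T-H3: the diagonal blocks at `n = p`; `C1_pa` and `H2_pa` enter as hypotheses (port of `Dim7/H3.lean`). -/

open Polynomial Pool.Agent.H337R2

namespace Pool.Agent.Run7.h136.T.H3

open Pool.Agent.Run7.h851.T

noncomputable section

variable {p : ℕ} [hp : Fact p.Prime]

/-! ### the exponent `eM` -/

theorem eM_val (k : ℕ) : eM p p k = if (p : ℤ) ∣ (k : ℤ) then 64 else 0 := by
  have hp0 : 0 < p := hp.out.pos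
  have hpz : (p : ℤ) ≠ 0 := by exact_mod_cast hp0.ne'
  have hpz' : (0 : ℤ) < p := by exact_mod_cast hp0
  have e1 : (cnt p 0 (4 * p) k : ℤ) = if (p : ℤ) ∣ (k : ℤ) then 5 else 4 := by
    rw [cnt_eq p 0 (4 * p) k hp0 (by omega)]
    push_cast
    rw [show (4 : ℤ) * p - k = (-1 - (k : ℤ) + 1) + p * 4 by ring,
      Int.add_mul_ediv_left _ _ hpz]
    have h1 := succ_ediv' (p : ℤ) hpz' (-1 - (k : ℤ))
    rw [h1]
    have h2 : (-1 - (k : ℤ) + 1) = -(k : ℤ) := by ring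
    rw [h2]
    by_cases h : (p : ℤ) ∣ (k : ℤ)
    · rw [if_pos (by rwa [dvd_neg]), if_pos h]; ring
    · rw [if_neg (by rwa [dvd_neg]), if_neg h]; ring
  have e4 : 4 * p / p = 4 := Nat.mul_div_cancel _ hp0
  unfold eM fM oM Np
  rw [e4, e1]
  push_cast
  split_ifs <;> norm_num

/-! ### the numerator -/

omit hp in
theorem XN_comp (r : ℕ) : (XN p r).comp (xM p) =
    (X + C (r : ℚ)) * (X + C (4 * (p : ℚ) - r)) := by
  unfold XN xM
  simp only [Polynomial.sub_comp, Polynomial.pow_comp, Polynomial.X_comp, Polynomial.C_comp]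
  push_cast
  simp only [map_sub, map_mul, map_ofNat]
  ring

omit hp in
theorem xM_eq : xM p = (X + C (2 * (p : ℚ))) ^ 2 := by
  unfold xM
  push_cast
  rfl

/-- the polynomial -/
def Qr (p r e : ℕ) : ℚ[X] := XN p r ^ e * OT p r 192

omit hp in
theorem EE_Qr (r e : ℕ) : EM p (Qr p r e) = xM p ^ 128 *
    ((XN p r).comp (xM p) ^ e *
    ∏ r' ∈ (Finset.Icc 1 ((p - 1) / 2)).erase r, (XN p r').comp (xM p) ^ 192) := by
  unfold EM Qr OT
  simp only [Polynomial.mul_comp, Polynomial.pow_comp, Polynomial.prod_comp, Polynomial.X_comp]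

theorem inv0 : (0 : ℚ) ≤ (p : ℚ)⁻¹ := inv_nonneg.2 p_pos'.le

theorem PB_lin1 (a : ℤ) (k : ℕ) : PB p (p : ℚ) 1 (TS (-(k : ℚ)) (X + C (a : ℚ))) := by
  rw [TS_lin]
  apply PB.linX p_pos'.le zero_le_one
  · have := padicNorm.of_int (p := p) (-(k : ℤ) + a)
    push_cast at this
    exact this
  · rw [one_mul]; exact p_one'

theorem PB_linp (a : ℤ) (k : ℕ) (h : (p : ℤ) ∣ a - k) :
    PB p (p : ℚ) (p : ℚ)⁻¹ (TS (-(k : ℚ)) (X + C (a : ℚ))) := by
  rw [TS_lin]
  apply PB.linX p_pos'.le inv0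
  · have := norm_le_ite (p := p) (a - k)
    rw [if_pos h] at this
    rw [show -(k : ℚ) + a = ((a - k : ℤ) : ℚ) by push_cast; ring]
    exact this
  · rw [inv_mul_cancel₀ p_pos'.ne']

theorem PB_XN (r k : ℕ) : PB p (p : ℚ) 1 (TS (-(k : ℚ)) ((XN p r).comp (xM p))) := by
  rw [XN_comp, map_mul]
  have h1 := PB_lin1 (p := p) (r : ℤ) k
  have h2 := PB_lin1 (p := p) (4 * (p : ℤ) - r) k
  push_cast at h1 h2
  have h3 := PB.mul p_pos'.le zero_le_one zero_le_one h1 h2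
  rwa [one_mul] at h3

theorem PB_XNp (r k : ℕ) (h : (p : ℤ) ∣ (k : ℤ) - r ∨ (p : ℤ) ∣ (k : ℤ) + r) :
    PB p (p : ℚ) (p : ℚ)⁻¹ (TS (-(k : ℚ)) ((XN p r).comp (xM p))) := by
  rw [XN_comp, map_mul]
  rcases h with h | h
  · have h1 := PB_linp (p := p) (r : ℤ) k (by
      rw [show (r : ℤ) - k = -((k : ℤ) - r) by ring, dvd_neg]; exact h)
    have h2 := PB_lin1 (p := p) (4 * (p : ℤ) - r) k
    push_cast at h1 h2
    have h3 := PB.mul p_pos'.le inv0 zero_le_one h1 h2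
    rwa [mul_one] at h3
  · have h1 := PB_lin1 (p := p) (r : ℤ) k
    have h2 := PB_linp (p := p) (4 * (p : ℤ) - r) k (by
      rw [show 4 * (p : ℤ) - r - k = (p : ℤ) * 4 - ((k : ℤ) + r) by ring]
      exact dvd_sub (dvd_mul_right _ _) h)
    push_cast at h1 h2
    have h3 := PB.mul p_pos'.le zero_le_one inv0 h1 h2
    rwa [one_mul] at h3

theorem PB_xM (k : ℕ) : PB p (p : ℚ) 1 (TS (-(k : ℚ)) (xM p)) := by
  rw [xM_eq, map_pow]
  have h1 := PB_lin1 (p := p) (2 * (p : ℤ)) k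
  push_cast at h1
  have h3 := PB.pow p_pos'.le zero_le_one h1 2
  rwa [one_pow] at h3

theorem PB_xMp (k : ℕ) (h : (p : ℤ) ∣ (k : ℤ)) :
    PB p (p : ℚ) ((p : ℚ)⁻¹ ^ 2) (TS (-(k : ℚ)) (xM p)) := by
  rw [xM_eq, map_pow]
  have h1 := PB_linp (p := p) (2 * (p : ℤ)) k (dvd_sub (dvd_mul_left _ _) h)
  push_cast at h1
  exact PB.pow p_pos'.le inv0 h1 2

/-- all factors of `EM` with individual bounds -/
theorem PB_EE (r e k : ℕ) (a0 ar : ℚ) (a : ℕ → ℚ) (h0 : 0 ≤ a0) (hr : 0 ≤ ar) (ha : ∀ r', 0 ≤ a r')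
    (b0 : PB p (p : ℚ) a0 (TS (-(k : ℚ)) (xM p)))
    (br : PB p (p : ℚ) ar (TS (-(k : ℚ)) ((XN p r).comp (xM p))))
    (b : ∀ r' ∈ (Finset.Icc 1 ((p - 1) / 2)).erase r,
      PB p (p : ℚ) (a r') (TS (-(k : ℚ)) ((XN p r').comp (xM p)))) :
    PB p (p : ℚ) (a0 ^ 128 * (ar ^ e * ∏ r' ∈ (Finset.Icc 1 ((p - 1) / 2)).erase r, a r' ^ 192))
      (TS (-(k : ℚ)) (EM p (Qr p r e))) := by
  rw [EE_Qr, map_mul, map_mul, map_pow, map_pow, map_prod]
  simp only [map_pow]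
  have h1 := PB.prod (p := p) ((Finset.Icc 1 ((p - 1) / 2)).erase r) (fun r' => a r' ^ 192)
    (fun r' => (TS (-(k : ℚ)) ((XN p r').comp (xM p))) ^ 192) p_pos'.le
    (fun r' _ => pow_nonneg (ha r') _) (fun r' hr' => PB.pow p_pos'.le (ha r') (b r' hr') 192)
  exact PB.mul p_pos'.le (pow_nonneg h0 _) (mul_nonneg (pow_nonneg hr _)
    (Finset.prod_nonneg fun r' _ => pow_nonneg (ha r') _)) (PB.pow p_pos'.le h0 b0 128)
    (PB.mul p_pos'.le (pow_nonneg hr _) (Finset.prod_nonneg fun r' _ => pow_nonneg (ha r') _)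
      (PB.pow p_pos'.le hr br e) h1)

theorem PB_near (r e k : ℕ) (h : (p : ℤ) ∣ (k : ℤ) - r ∨ (p : ℤ) ∣ (k : ℤ) + r) :
    PB p (p : ℚ) ((p : ℚ)⁻¹ ^ e) (TS (-(k : ℚ)) (EM p (Qr p r e))) := by
  have := PB_EE (p := p) r e k 1 (p : ℚ)⁻¹ (fun _ => 1) zero_le_one inv0 (fun _ => zero_le_one)
    (PB_xM k) (PB_XNp r k h) (fun r' _ => PB_XN r' k)
  simpa using this

theorem PB_zero (r e k : ℕ) (h : (p : ℤ) ∣ (k : ℤ)) :
    PB p (p : ℚ) ((p : ℚ)⁻¹ ^ 256) (TS (-(k : ℚ)) (EM p (Qr p r e))) := by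
  have := PB_EE (p := p) r e k ((p : ℚ)⁻¹ ^ 2) 1 (fun _ => 1) (pow_nonneg inv0 2)
    zero_le_one (fun _ => zero_le_one) (PB_xMp k h) (PB_XN r k) (fun r' _ => PB_XN r' k)
  rw [show ((p : ℚ)⁻¹ ^ 256) = ((p : ℚ)⁻¹ ^ 2) ^ 128 * (1 ^ e *
    ∏ r' ∈ (Finset.Icc 1 ((p - 1) / 2)).erase r, (1 : ℚ) ^ 192) by
      simp only [one_pow, Finset.prod_const_one, mul_one]
      rw [← pow_mul]]
  exact this

theorem PB_far (r e k r'' : ℕ) (hr'' : r'' ∈ Finset.Icc 1 ((p - 1) / 2)) (hne : r'' ≠ r)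
    (h : (p : ℤ) ∣ (k : ℤ) - r'' ∨ (p : ℤ) ∣ (k : ℤ) + r'') :
    PB p (p : ℚ) ((p : ℚ)⁻¹ ^ 192) (TS (-(k : ℚ)) (EM p (Qr p r e))) := by
  classical
  have := PB_EE (p := p) r e k 1 1 (fun r' => if r' = r'' then (p : ℚ)⁻¹ else 1) zero_le_one
    zero_le_one (fun r' => by split_ifs; exacts [inv0, zero_le_one]) (PB_xM k) (PB_XN r k)
    (fun r' _ => by
      split_ifs with h'
      · rw [h']; exact PB_XNp r'' k h
      · exact PB_XN r' k)
  have h2 : ∏ r' ∈ (Finset.Icc 1 ((p - 1) / 2)).erase r, (if r' = r'' then (p : ℚ)⁻¹ else 1) ^ 192 =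
      (p : ℚ)⁻¹ ^ 192 := by
    rw [Finset.prod_eq_single r'']
    · rw [if_pos rfl]
    · intro b _ hb
      rw [if_neg hb, one_pow]
    · intro h3
      exact absurd (Finset.mem_erase.2 ⟨hne, hr''⟩) h3
  rw [h2] at this
  simpa using this

theorem exists_rep (hp2 : p ≠ 2) (k : ℕ) (hk : ¬ (p : ℤ) ∣ (k : ℤ)) :
    ∃ r'' ∈ Finset.Icc 1 ((p - 1) / 2), (p : ℤ) ∣ (k : ℤ) - r'' ∨ (p : ℤ) ∣ (k : ℤ) + r'' := by
  have hp0 := hp.out.pos
  have hodd := hp.out.eq_two_or_odd.resolve_left hp2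
  have hm := Nat.mod_lt k hp0
  have hm0 : k % p ≠ 0 := by
    intro h
    exact hk (by exact_mod_cast Nat.dvd_of_mod_eq_zero h)
  have hdm := Nat.div_add_mod k p
  have hdz : (k : ℤ) = p * ((k / p : ℕ) : ℤ) + ((k % p : ℕ) : ℤ) := by exact_mod_cast hdm.symm
  by_cases h : k % p ≤ (p - 1) / 2
  · refine ⟨k % p, Finset.mem_Icc.2 ⟨by omega, h⟩, Or.inl ⟨((k / p : ℕ) : ℤ), ?_⟩⟩
    linarith
  · refine ⟨p - k % p, Finset.mem_Icc.2 ⟨by omega, by omega⟩, Or.inr ⟨((k / p : ℕ) : ℤ) + 1, ?_⟩⟩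
    rw [Nat.cast_sub hm.le]
    linarith

/-- statement of `C1_pa` for `n = p` -/
def C1st (p : ℕ) : Prop := ∀ (E : ℚ[X]) (k : ℕ), k ∈ sM p → ∀ (A : ℚ), 0 ≤ A →
  PB p (p : ℚ) A (TS (-(k : ℚ)) E) → ∀ i : ℕ,
    padicNorm p (pa (sM p) mM (PM p * E) k i) ≤ (p : ℚ) ^ (eM p p k - i : ℤ) * A

/-- the coefficients -/
def cf (p r e k i : ℕ) : ℚ := pa (sM p) mM (PM p * EM p (Qr p r e)) k i

/-- bound of the coefficients in the classes `±r` -/
theorem pa_near (hC : C1st p) (r e k i : ℕ) (hk : k ∈ sM p)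
    (hk0 : ¬ (p : ℤ) ∣ (k : ℤ))
    (h : (p : ℤ) ∣ (k : ℤ) - r ∨ (p : ℤ) ∣ (k : ℤ) + r) :
    padicNorm p (cf p r e k i) ≤ (p : ℚ) ^ (-(i : ℤ) - e) := by
  have h1 := hC (EM p (Qr p r e)) k hk _ (pow_nonneg inv0 e) (PB_near r e k h) i
  refine h1.trans (le_of_eq ?_)
  rw [eM_val k, if_neg hk0, inv_pow, ← zpow_natCast, ← zpow_neg, ← zpow_add₀ p_pos'.ne']
  congr 1
  ring

/-- bound of the coefficients in the other classes -/
theorem pa_far (hC : C1st p) (hp60 : 400 ≤ p) (r e k i : ℕ) (hk : k ∈ sM p)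
    (h : ¬ ((p : ℤ) ∣ (k : ℤ) - r ∨ (p : ℤ) ∣ (k : ℤ) + r)) :
    padicNorm p (cf p r e k i) ≤ (p : ℚ) ^ (-(i : ℤ) - 192) := by
  by_cases hk0 : (p : ℤ) ∣ (k : ℤ)
  · have h1 := hC (EM p (Qr p r e)) k hk _ (pow_nonneg inv0 256) (PB_zero r e k hk0) i
    refine h1.trans ?_
    rw [eM_val k, if_pos hk0, inv_pow, ← zpow_natCast, ← zpow_neg, ← zpow_add₀ p_pos'.ne']
    apply zpow_le_zpow_right₀ p_one'
    push_cast
    omega
  · obtain ⟨r'', hr'', h''⟩ := exists_rep (p := p) (by omega) k hk0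
    have h1 := hC (EM p (Qr p r e)) k hk _ (pow_nonneg inv0 192)
      (PB_far r e k r'' hr'' (fun e => h (e ▸ h'')) h'') i
    refine h1.trans (le_of_eq ?_)
    rw [eM_val k, if_neg hk0, inv_pow, ← zpow_natCast, ← zpow_neg, ← zpow_add₀ p_pos'.ne']
    congr 1
    push_cast
    ring

/-! ### reflection -/

theorem EM_reflect (n : ℕ) (Q : ℚ[X]) : (EM n Q).comp (-X - C ((4 * n : ℕ) : ℚ)) = EM n Q := by
  unfold EM
  rw [Polynomial.comp_assoc]
  congr 1
  unfold xM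
  simp only [Polynomial.pow_comp, Polynomial.add_comp, Polynomial.X_comp, Polynomial.C_comp]
  push_cast
  simp only [map_mul, map_ofNat, map_natCast]
  ring

theorem PM_reflect (n : ℕ) : (PM n).comp (-X - C ((4 * n : ℕ) : ℚ)) = -PM n := by
  unfold PM
  simp only [Polynomial.mul_comp, Polynomial.add_comp, Polynomial.X_comp,
    Polynomial.C_comp, Polynomial.ofNat_comp]
  ring

/-- reflection of the coefficients -/
theorem pa_reflect (r e : ℕ) {k i : ℕ} (h2 : k ≤ 4 * p) (hi : 1 ≤ i)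
    (hi6 : i ≤ 64) :
    cf p r e (4 * p - k) i = (-1) ^ (i + 1) * cf p r e k i := by
  have hp0 := hp.out.pos
  unfold cf pa
  rw [if_pos hi6, if_pos hi6]
  have h5 := pfc_reflect (sM p) mM (PM p * EM p (Qr p r e)) (4 * p)
    (fun k hk => by
      rw [Finset.mem_Icc] at hk ⊢
      omega)
    (fun k hk => rfl)
    (by
      rw [Polynomial.mul_comp, EM_reflect, PM_reflect, neg_mul])
    (by
      rw [Finset.sum_const, smul_eq_mul]
      exact Even.mul_left (by decide) _)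
    (k := k) (Finset.mem_Icc.2 (by omega)) (j := 64 - i) (by show 64 - i < 64; omega)
  rw [h5]
  show -(-1) ^ (64 - (64 - i)) * _ = _
  rw [show 64 - (64 - i) = i by omega, pow_succ]
  ring

/-! ### splitting the sum over the poles -/

omit hp in
theorem mul_ne_of {r a b p : ℕ} (hr1 : 1 ≤ r) (hr2 : 2 * r < p) : r + a * p + (r + b * p) ≠ 4 * p := by
  intro h
  have h1 : 2 * r + (a + b) * p = 4 * p := by linarith
  have h2 : (a + b) * p < 4 * p := by omega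
  have h3 : a + b < 4 := Nat.lt_of_mul_lt_mul_right h2
  have h4 : (a + b) * p ≤ 3 * p := Nat.mul_le_mul_right p (by omega)
  omega

omit hp in
theorem sum_split {r : ℕ} (hr1 : 1 ≤ r) (hr2 : 2 * r < p) : ∃ S ⊆ sM p,
    (∀ k ∈ S, ∀ j ∈ Finset.Icc 0 3, k ≠ r + j * p ∧ k ≠ 4 * p - (r + j * p)) ∧
    ∀ g : ℕ → ℚ, ∑ k ∈ sM p, g k =
      (∑ j ∈ Finset.Icc 0 3, (g (r + j * p) + g (4 * p - (r + j * p)))) + ∑ k ∈ S, g k := by
  classical
  have hb : ∀ j ∈ Finset.Icc 0 3, j * p ≤ 3 * p := fun j hj => by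
    rw [Finset.mem_Icc] at hj
    exact Nat.mul_le_mul_right p hj.2
  have hdis : Disjoint ((Finset.Icc 0 3).image (fun j => r + j * p))
      ((Finset.Icc 0 3).image (fun j => 4 * p - (r + j * p))) := by
    rw [Finset.disjoint_left]
    intro k hk hk'
    rw [Finset.mem_image] at hk hk'
    obtain ⟨j, hj, rfl⟩ := hk
    obtain ⟨j', hj', h⟩ := hk'
    have h1 := hb j hj
    have h2 := hb j' hj'
    refine mul_ne_of (a := j) (b := j') hr1 hr2 ?_
    omega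
  have hsub : (Finset.Icc 0 3).image (fun j => r + j * p) ∪
      (Finset.Icc 0 3).image (fun j => 4 * p - (r + j * p)) ⊆ sM p := by
    intro k hk
    rw [Finset.mem_union, Finset.mem_image, Finset.mem_image] at hk
    rw [Finset.mem_Icc]
    rcases hk with ⟨j, hj, rfl⟩ | ⟨j, hj, rfl⟩
    · have := hb j hj
      omega
    · have := hb j hj
      omega
  refine ⟨sM p \ ((Finset.Icc 0 3).image (fun j => r + j * p) ∪
      (Finset.Icc 0 3).image (fun j => 4 * p - (r + j * p))), Finset.sdiff_subset, ?_, ?_⟩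
  · intro k hk j hj
    rw [Finset.mem_sdiff, Finset.mem_union, not_or] at hk
    exact ⟨fun h => hk.2.1 (Finset.mem_image.2 ⟨j, hj, h.symm⟩),
      fun h => hk.2.2 (Finset.mem_image.2 ⟨j, hj, h.symm⟩)⟩
  · intro g
    have h1 : ∑ j ∈ Finset.Icc 0 3, g (r + j * p) =
        ∑ k ∈ (Finset.Icc 0 3).image (fun j => r + j * p), g k := by
      rw [Finset.sum_image]
      intro a _ b _ hab
      have : a * p = b * p := by simpa using hab
      exact Nat.eq_of_mul_eq_mul_right (by omega) this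
    have h2 : ∑ j ∈ Finset.Icc 0 3, g (4 * p - (r + j * p)) =
        ∑ k ∈ (Finset.Icc 0 3).image (fun j => 4 * p - (r + j * p)), g k := by
      rw [Finset.sum_image]
      intro a ha b hb' hab
      have h3 := hb a ha
      have h4 := hb b hb'
      have : a * p = b * p := by
        simp only at hab
        omega
      exact Nat.eq_of_mul_eq_mul_right (by omega) this
    rw [Finset.sum_add_distrib, h1, h2, ← Finset.sum_union hdis, add_comm]
    exact (Finset.sum_sdiff hsub).symm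

theorem rest_class {r k : ℕ} (hr1 : 1 ≤ r) (hr2 : 2 * r < p) (h2 : k ≤ 4 * p)
    (h : ∀ j ∈ Finset.Icc 0 3, k ≠ r + j * p ∧ k ≠ 4 * p - (r + j * p)) :
    ¬ ((p : ℤ) ∣ (k : ℤ) - r ∨ (p : ℤ) ∣ (k : ℤ) + r) := by
  have hp0 := hp.out.pos
  have hk0 : (0 : ℤ) ≤ k := by positivity
  have hk4 : (k : ℤ) ≤ 4 * p := by exact_mod_cast h2
  have hr2' : (2 : ℤ) * r < p := by exact_mod_cast hr2
  have hr1' : (1 : ℤ) ≤ r := by exact_mod_cast hr1
  rintro (⟨m, hm⟩ | ⟨m, hm⟩)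
  · have hm' : (k : ℤ) = r + p * m := by linarith
    have h3 : -1 < m := by
      by_contra hcon
      push Not at hcon
      have := mul_le_mul_of_nonneg_left hcon (by positivity : (0 : ℤ) ≤ p)
      linarith
    have h4 : m < 4 := by
      by_contra hcon
      push Not at hcon
      have := mul_le_mul_of_nonneg_left hcon (by positivity : (0 : ℤ) ≤ p)
      linarith
    have h5 := (h m.toNat (by rw [Finset.mem_Icc]; omega)).1
    apply h5
    have h6 : ((m.toNat : ℕ) : ℤ) = m := Int.toNat_of_nonneg (by omega)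
    have : (k : ℤ) = ((r + m.toNat * p : ℕ) : ℤ) := by
      push_cast
      rw [h6, hm']
      ring
    exact_mod_cast this
  · have hm' : (k : ℤ) = p * m - r := by linarith
    have h3 : 0 < m := by
      by_contra hcon
      push Not at hcon
      have := mul_le_mul_of_nonneg_left hcon (by positivity : (0 : ℤ) ≤ p)
      linarith
    have h4 : m < 5 := by
      by_contra hcon
      push Not at hcon
      have := mul_le_mul_of_nonneg_left hcon (by positivity : (0 : ℤ) ≤ p)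
      linarith
    have h5 := (h (4 - m).toNat (by rw [Finset.mem_Icc]; omega)).2
    apply h5
    have h6 : ((4 - m).toNat : ℤ) = 4 - m := Int.toNat_of_nonneg (by omega)
    have h7 : r + (4 - m).toNat * p ≤ 4 * p := by
      have : ((r + (4 - m).toNat * p : ℕ) : ℤ) ≤ ((4 * p : ℕ) : ℤ) := by
        push_cast
        rw [h6]
        linarith
      exact_mod_cast this
    have : (k : ℤ) = ((4 * p - (r + (4 - m).toNat * p) : ℕ) : ℤ) := by
      rw [Nat.cast_sub h7]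
      push_cast
      rw [h6, hm']
      ring
    exact_mod_cast this

/-! ### small facts on norms -/

theorem nadd {a b c : ℚ} (ha : padicNorm p a ≤ c) (hb : padicNorm p b ≤ c) :
    padicNorm p (a + b) ≤ c := padicNorm.nonarchimedean.trans (max_le ha hb)

theorem nsub {a b c : ℚ} (ha : padicNorm p a ≤ c) (hb : padicNorm p b ≤ c) :
    padicNorm p (a - b) ≤ c := padicNorm.sub.trans (max_le ha hb)

theorem nmul {a b x y : ℚ} (ha : padicNorm p a ≤ x) (hb : padicNorm p b ≤ y) :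
    padicNorm p (a * b) ≤ x * y := by
  rw [padicNorm.mul]
  exact mul_le_mul ha hb (padicNorm.nonneg _) ((padicNorm.nonneg _).trans ha)

theorem norm_ppow (m : ℕ) : padicNorm p ((p : ℚ) ^ m) = (p : ℚ) ^ (-(m : ℤ)) := by
  rw [padicNorm_pow', padicNorm.padicNorm_p_of_prime, inv_pow, zpow_neg, zpow_natCast]

theorem norm_pneg (m : ℕ) : padicNorm p ((p : ℚ) ^ (-(m : ℤ))) = (p : ℚ) ^ (m : ℤ) := by
  rw [zpow_neg, zpow_natCast, inv_eq_one_div, padicNorm.div, padicNorm.one, norm_ppow, one_div,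
    zpow_neg, inv_inv, zpow_natCast]

theorem norm_int_le (z : ℤ) : padicNorm p (z : ℚ) ≤ 1 := padicNorm.of_int z

theorem norm_sgn (i : ℕ) : padicNorm p ((-1 : ℚ) ^ i) ≤ 1 := by
  have := norm_int_le (p := p) ((-1) ^ i)
  push_cast at this
  exact this

/-- statement of `H1_hs` -/
def H1st (p : ℕ) : Prop := ∀ (r a e : ℕ), r < p → a < p → 1 ≤ e →
    padicNorm p ((p : ℚ) ^ e * hs e (a * p + r) - hs e a) ≤ (p : ℚ)⁻¹

/-- statement of `H2_pa` -/
def H2st (p r : ℕ) : Prop :=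
    ∃ w : ℚ, padicNorm p w = 1 ∧ ∀ e j i : ℕ, e ≤ 190 → j ≤ 3 → 1 ≤ i → i ≤ 64 →
      padicNorm p (pa (sM p) mM (PM p * EM p (XN p r ^ e * OT p r 192))
        (r + j * p) i / (p : ℚ) ^ (i + e) -
        w * (-2 * r) ^ e * PowerSeries.coeff (64 - i) (ser j e)) ≤ (p : ℚ)⁻¹

omit hp in
theorem class_ne (r j : ℕ) (hr1 : 1 ≤ r) (hr2 : 2 * r < p) : ¬ (p : ℤ) ∣ ((r + j * p : ℕ) : ℤ) := by
  rintro ⟨m, hm⟩
  have h1 : (p : ℤ) ∣ (r : ℤ) := ⟨m - j, by push_cast at hm; linarith⟩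
  have h2 : p ∣ r := by exact_mod_cast h1
  have := Nat.le_of_dvd hr1 h2
  omega

/-- normalised coefficient is integral -/
theorem cf_norm (hC : C1st p) {r e i j : ℕ} (hr1 : 1 ≤ r) (hr2 : 2 * r < p)
    (hj8 : j ≤ 3) : padicNorm p (cf p r e (r + j * p) i / (p : ℚ) ^ (i + e)) ≤ 1 := by
  have hjp : j * p ≤ 3 * p := Nat.mul_le_mul_right p hj8
  have hka := pa_near (p := p) hC r e (r + j * p) i (Finset.mem_Icc.2 (by omega))
    (class_ne r j hr1 hr2) (Or.inl ⟨j, by push_cast; ring⟩)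
  rw [padicNorm.div, norm_ppow, div_le_one (zpow_pos p_pos' _)]
  refine hka.trans (le_of_eq ?_)
  congr 1
  push_cast
  ring

/-- the contribution of one pair of poles -/
theorem pair_term (H1_hs : H1st p) (hC : C1st p) (hp60 : 400 ≤ p) (α : ℚ) (hα : padicNorm p α ≤ 1)
    {r e i j : ℕ} (hr1 : 1 ≤ r) (hr2 : 2 * r < p) (hj8 : j ≤ 3)
    (hi1 : 1 ≤ i) (hi6 : i ≤ 64) (γ : ℚ)
    (hγ : padicNorm p (cf p r e (r + j * p) i / (p : ℚ) ^ (i + e) - γ) ≤ (p : ℚ)⁻¹) :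
    padicNorm p ((p : ℚ) ^ (-(e : ℤ)) *
      (cf p r e (r + j * p) i * (α - hs i (r + j * p)) +
      cf p r e (4 * p - (r + j * p)) i * (α - hs i (4 * p - (r + j * p)))) +
      γ * (hs i j + (-1) ^ (i + 1) * hs i (3 - j))) ≤ (p : ℚ)⁻¹ := by
  have hp0 := hp.out.pos
  have hjp : j * p ≤ 3 * p := Nat.mul_le_mul_right p hj8
  have e1 : r + j * p = j * p + r := by omega
  have e2 : 4 * p - (r + j * p) = (3 - j) * p + (p - r) := by
    have : (3 - j) * p + j * p = 3 * p := by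
      rw [← Nat.add_mul]
      congr 1
      omega
    omega
  have hA1 := cf_norm (p := p) hC (e := e) (i := i) hr1 hr2 hj8
  rw [pa_reflect (p := p) r e (k := r + j * p) (i := i) (by omega) hi1 hi6, e2]
  have e3 : hs i (r + j * p) = hs i (j * p + r) := by rw [e1]
  rw [e3]
  set a := cf p r e (r + j * p) i with ha
  have hpi : (p : ℚ) ^ (i + e) ≠ 0 := pow_ne_zero _ p_pos'.ne'
  -- normalised coefficient
  set A := a / (p : ℚ) ^ (i + e) with hA
  have haA : (p : ℚ) ^ (-(e : ℤ)) * a = A * (p : ℚ) ^ i := by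
    rw [hA, zpow_neg, zpow_natCast, pow_add]
    have h1 : (p : ℚ) ^ i ≠ 0 := pow_ne_zero _ p_pos'.ne'
    have h2 : (p : ℚ) ^ e ≠ 0 := pow_ne_zero _ p_pos'.ne'
    field_simp
  have hb := H1_hs r j i (by omega) (by omega) hi1
  have hb' := H1_hs (p - r) (3 - j) i (by omega) (by omega) hi1
  have hH := hs_norm_small (p := p) i j (by omega)
  have hH' := hs_norm_small (p := p) i (3 - j) (by omega)
  set b := (p : ℚ) ^ i * hs i (j * p + r) with hbd
  set b' := (p : ℚ) ^ i * hs i ((3 - j) * p + (p - r)) with hbd'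
  set H := hs i j with hHd
  set H' := hs i (3 - j) with hHd'
  have key : (p : ℚ) ^ (-(e : ℤ)) *
      (a * (α - hs i (j * p + r)) +
      (-1) ^ (i + 1) * a * (α - hs i ((3 - j) * p + (p - r)))) +
      γ * (H + (-1) ^ (i + 1) * H') =
      (((p : ℚ) ^ (-(e : ℤ)) * a * α + (-1) ^ (i + 1) * ((p : ℚ) ^ (-(e : ℤ)) * a * α)) -
      (A * (b - H) + (-1) ^ (i + 1) * (A * (b' - H')))) - (A - γ) * (H + (-1) ^ (i + 1) * H') := by
    have h1 : (p : ℚ) ^ (-(e : ℤ)) * a * hs i (j * p + r) = A * b := by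
      rw [haA, hbd]; ring
    have h2 : (p : ℚ) ^ (-(e : ℤ)) * a * hs i ((3 - j) * p + (p - r)) = A * b' := by
      rw [haA, hbd']; ring
    linear_combination (-1 : ℚ) * h1 - (-1) ^ (i + 1) * h2
  rw [key]
  have hu1 : padicNorm p ((p : ℚ) ^ (-(e : ℤ)) * a * α) ≤ (p : ℚ)⁻¹ := by
    rw [haA]
    have h1 : padicNorm p (A * (p : ℚ) ^ i) ≤ 1 * (p : ℚ) ^ (-(i : ℤ)) := nmul hA1 (norm_ppow i).le
    have h2 := nmul h1 hα
    rw [mul_one, one_mul] at h2
    refine h2.trans ?_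
    rw [← zpow_neg_one]
    apply zpow_le_zpow_right₀ p_one'
    omega
  have hs1 := norm_sgn (p := p) (i + 1)
  have hle : ∀ {x : ℚ}, padicNorm p x ≤ (p : ℚ)⁻¹ →
      padicNorm p ((-1) ^ (i + 1) * x) ≤ (p : ℚ)⁻¹ := fun {x} hx => by
    have := nmul hs1 hx
    rwa [one_mul] at this
  have hAb : ∀ {x : ℚ}, padicNorm p x ≤ (p : ℚ)⁻¹ → padicNorm p (A * x) ≤ (p : ℚ)⁻¹ :=
    fun {x} hx => by
    have := nmul hA1 hx
    rwa [one_mul] at this
  have hHH : padicNorm p (H + (-1) ^ (i + 1) * H') ≤ 1 := by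
    refine nadd hH ?_
    have := nmul hs1 hH'
    rwa [one_mul] at this
  refine nsub (nsub (nadd hu1 (hle hu1)) (nadd (hAb hb) (hle (hAb hb')))) ?_
  have := nmul hγ hHH
  rwa [mul_one] at this

/-- the contribution of the other poles -/
theorem rest_term (hC : C1st p) (hp60 : 400 ≤ p) (α : ℚ) (hα : padicNorm p α ≤ 1)
    {r e i k : ℕ} (hr1 : 1 ≤ r) (hr2 : 2 * r < p) (he : e ≤ 190) (hk : k ∈ sM p)
    (hrest : ∀ j ∈ Finset.Icc 0 3, k ≠ r + j * p ∧ k ≠ 4 * p - (r + j * p)) :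
    padicNorm p ((p : ℚ) ^ (-(e : ℤ)) * (cf p r e k i * (α - hs i k))) ≤ (p : ℚ)⁻¹ := by
  have hk' := Finset.mem_Icc.1 hk
  have h1 := pa_far (p := p) hC hp60 r e k i hk (rest_class hr1 hr2 (by omega) hrest)
  have h2 := hs_norm_med (p := p) i k (by nlinarith [hk'.2])
  have h3 : padicNorm p (α - hs i k) ≤ (p : ℚ) ^ i :=
    nsub (hα.trans (one_le_pow₀ p_one')) h2
  have h4 := nmul (norm_pneg (p := p) e).le (nmul h1 h3)
  refine h4.trans ?_
  rw [← zpow_natCast (p : ℚ) i, ← zpow_add₀ p_pos'.ne', ← zpow_add₀ p_pos'.ne', ← zpow_neg_one]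
  apply zpow_le_zpow_right₀ p_one'
  omega

/-- the `B`-part: one pair -/
theorem pairB_term (hC : C1st p) (β : ℕ → ℚ) (hβ : ∀ i, padicNorm p (β i) ≤ 1)
    {i0 : ℕ} (hi0 : Odd i0) (hβ0 : ∀ i < i0, β i = 0)
    {r e i j : ℕ} (hr1 : 1 ≤ r) (hr2 : 2 * r < p) (hj8 : j ≤ 3)
    (hi1 : 1 ≤ i) (hi6 : i ≤ 64) (γ : ℚ)
    (hγ : padicNorm p (cf p r e (r + j * p) i / (p : ℚ) ^ (i + e) - γ) ≤ (p : ℚ)⁻¹) :
    padicNorm p ((p : ℚ) ^ (-(e : ℤ) - i0) *
      ((cf p r e (r + j * p) i + cf p r e (4 * p - (r + j * p)) i) * β i) -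
      (if i = i0 then 2 * γ * β i else 0)) ≤ (p : ℚ)⁻¹ := by
  have hjp : j * p ≤ 3 * p := Nat.mul_le_mul_right p hj8
  rcases lt_trichotomy i i0 with h | h | h
  · rw [hβ0 i h, mul_zero, mul_zero, if_neg (by omega), sub_zero, padicNorm.zero]
    exact inv0
  · subst h
    rw [if_pos rfl]
    rw [pa_reflect (p := p) r e (k := r + j * p) (i := i) (by omega) hi1 hi6]
    have hsg : ((-1 : ℚ)) ^ (i + 1) = 1 := Even.neg_one_pow (hi0.add_one)
    rw [hsg, one_mul]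
    set a := cf p r e (r + j * p) i with ha
    have e1 : (p : ℚ) ^ (-(e : ℤ) - i) * ((a + a) * β i) - 2 * γ * β i =
        2 * ((a / (p : ℚ) ^ (i + e) - γ) * β i) := by
      have h1 : (p : ℚ) ^ (-(e : ℤ) - i) = ((p : ℚ) ^ (i + e))⁻¹ := by
        rw [← zpow_natCast, ← zpow_neg]
        congr 1
        push_cast
        ring
      rw [h1, div_eq_mul_inv]
      ring
    rw [e1]
    have h2 : padicNorm p (2 : ℚ) ≤ 1 := by
      have := norm_int_le (p := p) 2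
      push_cast at this
      exact this
    have h3 := nmul h2 (nmul hγ (hβ i))
    rwa [mul_one, one_mul] at h3
  · rw [if_neg (by omega), sub_zero]
    rw [pa_reflect (p := p) r e (k := r + j * p) (i := i) (by omega) hi1 hi6]
    set a := cf p r e (r + j * p) i with ha
    have hk := pa_near (p := p) hC r e (r + j * p) i (Finset.mem_Icc.2 (by omega))
      (class_ne r j hr1 hr2) (Or.inl ⟨j, by push_cast; ring⟩)
    rw [← ha] at hk
    have hk2 : padicNorm p (a + (-1) ^ (i + 1) * a) ≤ (p : ℚ) ^ (-(i : ℤ) - e) := by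
      refine nadd hk ?_
      have := nmul (norm_sgn (p := p) (i + 1)) hk
      rwa [one_mul] at this
    have hn : padicNorm p ((p : ℚ) ^ (-(e : ℤ) - i0)) = (p : ℚ) ^ ((e : ℤ) + i0) := by
      have := norm_pneg (p := p) (e + i0)
      rw [show (-(e : ℤ) - i0) = -(((e + i0 : ℕ)) : ℤ) by push_cast; ring, this]
      push_cast
      rfl
    have h3 := nmul hn.le (nmul hk2 (hβ i))
    rw [mul_one, ← zpow_add₀ p_pos'.ne'] at h3
    refine h3.trans ?_
    rw [← zpow_neg_one]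
    apply zpow_le_zpow_right₀ p_one'
    omega

/-- the `B`-part: other poles -/
theorem restB_term (hC : C1st p) (hp60 : 400 ≤ p) (β : ℕ → ℚ) (hβ : ∀ i, padicNorm p (β i) ≤ 1)
    {i0 : ℕ} (hβ0 : ∀ i < i0, β i = 0)
    {r e i k : ℕ} (hr1 : 1 ≤ r) (hr2 : 2 * r < p) (he : e ≤ 190) (hk : k ∈ sM p)
    (hrest : ∀ j ∈ Finset.Icc 0 3, k ≠ r + j * p ∧ k ≠ 4 * p - (r + j * p)) :
    padicNorm p ((p : ℚ) ^ (-(e : ℤ) - i0) * (cf p r e k i * β i)) ≤ (p : ℚ)⁻¹ := by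
  by_cases h : i < i0
  · rw [hβ0 i h, mul_zero, mul_zero, padicNorm.zero]
    exact inv0
  · have hk' := Finset.mem_Icc.1 hk
    have h1 := pa_far (p := p) hC hp60 r e k i hk (rest_class hr1 hr2 (by omega) hrest)
    have hn : padicNorm p ((p : ℚ) ^ (-(e : ℤ) - i0)) = (p : ℚ) ^ ((e : ℤ) + i0) := by
      have := norm_pneg (p := p) (e + i0)
      rw [show (-(e : ℤ) - i0) = -(((e + i0 : ℕ)) : ℤ) by push_cast; ring, this]
      push_cast
      rfl
    have h3 := nmul hn.le (nmul h1 (hβ i))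
    rw [mul_one, ← zpow_add₀ p_pos'.ne'] at h3
    refine h3.trans ?_
    rw [← zpow_neg_one]
    apply zpow_le_zpow_right₀ p_one'
    omega

theorem H3_of {p : ℕ} [Fact p.Prime] (h1s : H1st p) (hC : C1st p) (hp : 400 ≤ p)
    (r : ℕ) (hr1 : 1 ≤ r) (hr2 : 2 * r < p) (h2s : H2st p r) :
    ∃ w : ℚ, padicNorm p w = 1 ∧
      (∀ (α : ℕ → ℚ), (∀ i, padicNorm p (α i) ≤ 1) → ∀ e : ℕ, e ≤ 190 →
        padicNorm p ((p : ℚ) ^ (-(e : ℤ)) * AL p α (XN p r ^ e * OT p r 192) -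
          w * (-2 * r) ^ e * Fm e) ≤ (p : ℚ)⁻¹) ∧
      (∀ (β : ℕ → ℚ) (i0 : ℕ), (∀ i, padicNorm p (β i) ≤ 1) → Odd i0 → i0 ≤ 63 → (∀ i < i0, β i = 0) →
        ∀ e : ℕ, e ≤ 190 →
        padicNorm p ((p : ℚ) ^ (-(e : ℤ) - i0) * BL p β (XN p r ^ e * OT p r 192) -
          w * (-2 * r) ^ e * (β i0 * Bm i0 e)) ≤ (p : ℚ)⁻¹) := by
  obtain ⟨w, hw1, hw0⟩ := h2s
  have hw : ∀ e j i : ℕ, e ≤ 190 → j ≤ 3 → 1 ≤ i → i ≤ 64 →
      padicNorm p (cf p r e (r + j * p) i / (p : ℚ) ^ (i + e) -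
        w * (-2 * r) ^ e * PowerSeries.coeff (64 - i) (ser j e)) ≤ (p : ℚ)⁻¹ := by
    intro e j i he hj hi1 hi2
    have h := hw0 e j i he hj hi1 hi2
    unfold cf Qr
    exact h
  obtain ⟨S, hS, hSr, hsum⟩ := sum_split (p := p) hr1 hr2
  refine ⟨w, hw1, fun α hα e he => ?_, fun β i0 hβ hodd hi063 hβ0 e he => ?_⟩
  · have hQ : XN p r ^ e * OT p r 192 = Qr p r e := by unfold Qr; rfl
    rw [hQ]
    have hN : (p : ℚ) ^ (-(e : ℤ)) * AL p α (Qr p r e) - w * (-2 * r) ^ e * Fm e =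
        ∑ i ∈ Finset.Icc 1 64,
        ((∑ j ∈ Finset.Icc 0 3, ((p : ℚ) ^ (-(e : ℤ)) *
        (cf p r e (r + j * p) i * (α i - hs i (r + j * p)) +
        cf p r e (4 * p - (r + j * p)) i * (α i - hs i (4 * p - (r + j * p)))) +
        (w * (-2 * r) ^ e * PowerSeries.coeff (64 - i) (ser j e)) *
          (hs i j + (-1) ^ (i + 1) * hs i (3 - j)))) +
        ∑ k ∈ S, (p : ℚ) ^ (-(e : ℤ)) * (cf p r e k i * (α i - hs i k))) := by
      have h1 : w * (-2 * (r : ℚ)) ^ e * Fm e = -∑ i ∈ Finset.Icc 1 64,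
          ∑ j ∈ Finset.Icc 0 3, (w * (-2 * r) ^ e * PowerSeries.coeff (64 - i) (ser j e)) *
          (hs i j + (-1) ^ (i + 1) * hs i (3 - j)) := by
        unfold Fm
        rw [mul_neg, Finset.sum_comm, Finset.mul_sum]
        congr 1
        refine Finset.sum_congr rfl fun i _ => ?_
        rw [Finset.mul_sum]
        refine Finset.sum_congr rfl fun j _ => ?_
        ring
      have h2 : AL p α (Qr p r e) = ∑ i ∈ Finset.Icc 1 64,
          ∑ k ∈ sM p, cf p r e k i * (α i - hs i k) := by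
        rw [AL_apply]
        unfold xa rho
        refine Finset.sum_congr rfl fun i _ => ?_
        rw [Finset.sum_mul, ← Finset.sum_sub_distrib]
        refine Finset.sum_congr rfl fun k _ => ?_
        unfold cf
        ring
      rw [h1, sub_neg_eq_add, h2, Finset.mul_sum, ← Finset.sum_add_distrib]
      refine Finset.sum_congr rfl fun i _ => ?_
      rw [hsum]
      simp only [Finset.sum_add_distrib, ← Finset.mul_sum]
      ring
    rw [hN]
    apply padicNorm.sum_le' _ inv0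
    intro i hi
    rw [Finset.mem_Icc] at hi
    refine nadd ?_ ?_
    · apply padicNorm.sum_le' _ inv0
      intro j hj
      rw [Finset.mem_Icc] at hj
      exact pair_term h1s hC hp (α i) (hα i) hr1 hr2 hj.2 hi.1 hi.2 _
        (hw e j i he hj.2 hi.1 hi.2)
    · apply padicNorm.sum_le' _ inv0
      intro k hk
      exact rest_term hC hp (α i) (hα i) hr1 hr2 he (hS hk) (hSr k hk)
  · have hQ : XN p r ^ e * OT p r 192 = Qr p r e := by unfold Qr; rfl
    rw [hQ]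
    have hi01 : 1 ≤ i0 := hodd.pos
    have hN : (p : ℚ) ^ (-(e : ℤ) - (i0 : ℕ)) * BL p β (Qr p r e) -
        w * (-2 * r) ^ e * (β i0 * Bm i0 e) =
        ∑ i ∈ Finset.Icc 1 64,
        ((∑ j ∈ Finset.Icc 0 3, ((p : ℚ) ^ (-(e : ℤ) - (i0 : ℕ)) *
        ((cf p r e (r + j * p) i + cf p r e (4 * p - (r + j * p)) i) * β i) -
        (if i = i0 then 2 * (w * (-2 * r) ^ e * PowerSeries.coeff (64 - i) (ser j e)) * β i
          else 0))) +
        ∑ k ∈ S, (p : ℚ) ^ (-(e : ℤ) - (i0 : ℕ)) * (cf p r e k i * β i)) := by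
      have h1 : w * (-2 * (r : ℚ)) ^ e * (β i0 * Bm i0 e) = ∑ i ∈ Finset.Icc 1 64,
          ∑ j ∈ Finset.Icc 0 3,
          (if i = i0 then 2 * (w * (-2 * r) ^ e * PowerSeries.coeff (64 - i) (ser j e)) * β i
            else 0) := by
        rw [Finset.sum_eq_single_of_mem i0 (Finset.mem_Icc.2 ⟨hi01, by omega⟩)]
        · simp only [if_true]
          unfold Bm
          rw [Finset.mul_sum, Finset.mul_sum, Finset.mul_sum]
          refine Finset.sum_congr rfl fun j _ => ?_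
          ring
        · intro i _ hi
          simp [hi]
      have h2 : BL p β (Qr p r e) = ∑ i ∈ Finset.Icc 1 64,
          ∑ k ∈ sM p, cf p r e k i * β i := by
        rw [BL_apply]
        unfold xb rho
        refine Finset.sum_congr rfl fun i _ => ?_
        rw [Finset.sum_mul]
        rfl
      rw [h1, h2, Finset.mul_sum, ← Finset.sum_sub_distrib]
      refine Finset.sum_congr rfl fun i _ => ?_
      rw [hsum]
      simp only [Finset.sum_sub_distrib, ← Finset.mul_sum, Finset.sum_add_distrib, add_mul,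
        ← Finset.sum_mul]
      ring
    rw [hN]
    apply padicNorm.sum_le' _ inv0
    intro i hi
    rw [Finset.mem_Icc] at hi
    refine nadd ?_ ?_
    · apply padicNorm.sum_le' _ inv0
      intro j hj
      rw [Finset.mem_Icc] at hj
      exact pairB_term hC β hβ hodd hβ0 hr1 hr2 hj.2 hi.1 hi.2 _
        (hw e j i he hj.2 hi.1 hi.2)
    · apply padicNorm.sum_le' _ inv0
      intro k hk
      exact restB_term hC hp β hβ hβ0 hr1 hr2 he (hS hk) (hSr k hk)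

end

end Pool.Agent.Run7.h136.T.H3

namespace Pool.Agent.Run7.h136.T

open Pool.Agent.Run7.h851.T

/-- **H3**: the diagonal entries modulo `p` at `n = p` -/
theorem t_H3_diag_of (h1 : St_C1_pa) (h2 : St_H2_pa) : St_H3_diag := by
  intro p _ hp r hr1 hr2
  exact H3.H3_of (fun r a e hr ha he => Pool.Agent.H336R2.HD.H1_hs r a e hr ha he)
    (fun E _ hk A hA hE i => h1 (by omega) (by nlinarith) E hk A hA hE i) (by omega)
    r hr1 hr2 (h2 hp r hr1 hr2)

end Pool.Agent.Run7.h136.T
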